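import Mathlib

/-! Groups with a bounded number of factors, each nilpotent, or residually linear of bounded degree, or of order prime to `Q`. -/

set_option autoImplicit false

universe u v

namespace Pool.Agent.H94.BC

/-- `G ⧸ M` is a subdirect product of linear groups of degree `d` over fields: every element of `G` outside `M` is moved by a
representation of `G` of degree `d` over some field which kills `M`. -/
def ResLinear (d : ℕ) {G : Type u} [Group G] (M : Subgroup G) : Prop :=
  ∀ g : G, g ∉ M → ∃ (F : Type) (_ : Field F) (ρ : G →* GL (Fin d) F), (∀ m ∈ M, ρ m = 1) ∧ ρ g ≠ 1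

/-- The elements of `T` have orders prime to the orders of all elements of `Q`. -/
def PrimeTo (T : Type u) (Q : Type v) [Group T] [Group Q] : Prop :=
  ∀ (t : T) (q : Q), (orderOf t).Coprime (orderOf q)

/-- `G` has a subnormal series of length `h`, each factor of which is nilpotent, or a subdirect product of linear groups of degree
`d` over fields, or a group of elements of order prime to the orders of the elements of `Q`. -/
def Tame (Q : Type v) [Group Q] (d : ℕ) : ℕ → ∀ (G : Type u) [Group G], Prop
  | 0, G, _ => Subsingleton G
  | h + 1, G, _ => ∃ M : Subgroup G, ∃ _ : M.Normal,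
      (Group.IsNilpotent (G ⧸ M) ∨ ResLinear d M ∨ PrimeTo (G ⧸ M) Q) ∧ Tame Q d h M

/-- Every finite subset of `N` generates a finite subgroup. -/
def LocFin {G : Type u} [Group G] (N : Subgroup G) : Prop :=
  ∀ s : Finset G, (s : Set G) ⊆ (N : Set G) → Finite (Subgroup.closure (s : Set G))

/-- No proper subgroup of finite index. -/
def NoFI (Q : Type v) [Group Q] : Prop := ∀ H : Subgroup Q, H.FiniteIndex → H = ⊤

/-- `K` is finitely generated and `φ : K → Q` is onto with locally finite kernel. -/
structure Good {K : Type u} {Q : Type v} [Group K] [Group Q] (φ : K →* Q) : Prop where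
  fg : Group.FG K
  sur : Function.Surjective φ
  lf : LocFin φ.ker

end Pool.Agent.H94.BC
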