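/-
ROW L0 (MP_d9a994_BC), done (helper89): from `Pool.Agent.H89.LI.linear` (one subgroup of finite index for all representations of degree `d`
over all fields). The file L1.lean is not needed any more.
-/
import Pool.Agent.H94.BC.Defs
import Pool.Agent.H89.LI.Lin

set_option autoImplicit false

universe u v w

namespace Pool.Agent.H94.BC

theorem lin0 {K : Type u} [Group K] (hK : Group.FG K) (d : ℕ) {I : Type w} (F : I → Type v) [∀ i, Field (F i)]
    (ρ : ∀ i, K →* GL (Fin d) (F i)) :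
    ∃ K1 : Subgroup K, K1.FiniteIndex ∧ ∀ g : K, (∀ n, g ∈ K1.lowerCentralSeries n) → ∀ i, ρ i g = 1 := by
  obtain ⟨K1, -, hf, h⟩ := Pool.Agent.H89.LI.linear.{u, v} K d
  exact ⟨K1, hf, fun g hg i => h g hg (F i) (ρ i)⟩

theorem lin2 {K : Type u} [Group K] (hK : Group.FG K) (d : ℕ) :
    ∃ K1 : Subgroup K, K1.FiniteIndex ∧ ∀ g : K, (∀ n, g ∈ K1.lowerCentralSeries n) → ∀ (F : Type) [Field F] (ρ : K →* GL (Fin d) F), ρ g = 1 := by
  obtain ⟨K1, -, hf, h⟩ := Pool.Agent.H89.LI.linear.{u, 0} K d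
  exact ⟨K1, hf, fun g hg F _ ρ => h g hg F ρ⟩

end Pool.Agent.H94.BC
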