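/-
ROW L1 (MP_d9a994_BC). Linear groups over finitely generated rings are virtually residually nilpotent, uniformly in all primes.
PROOF of fin_res: A ⧸ m is a field, finite type over ℤ, so Module.Finite ℤ (A ⧸ m) (finite_of_finite_type_of_isJacobsonRing); a field which is a
finitely generated abelian group has characteristic p > 0 (else ℚ would be a finitely generated ℤ-submodule, or: p = 2 would be a unit, integral over ℤ ...),
hence it is a finitely generated torsion group, finite.
PROOF of cong: induction on n; if x ≡ 1 mod m^a and y ≡ 1 mod m then xy - yx = (x-1)(y-1) - (y-1)(x-1) has entries in m^(a+1), and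
⁅x,y⁆ - 1 = (xy - yx) x⁻¹ y⁻¹; the set of g with M g - 1 entrywise in an ideal is a subgroup (closure induction over commutators).
PROOF of lin1: minimalPrimes A is finite; for each p in it choose a maximal m(p) ≥ p. K1 = inf over p of the kernels of K → GL_d(A/m(p)), finite index
(finite groups). Let P be prime, p a minimal prime below P. g in all K1.lowerCentralSeries n: by cong M g - 1 has entries in m(p)^(n+1) for all n; in the
noetherian domain A/p the powers of the proper ideal m(p)/p have intersection 0 (Ideal.iInf_pow_eq_bot_of_isDomain), so the entries are in p, hence in P.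
-/
import Pool.Agent.H94.BC.Defs

set_option autoImplicit false

universe u v

namespace Pool.Agent.H94.BC

theorem fin_res (A : Type u) [CommRing A] [Algebra.FiniteType ℤ A] (m : Ideal A) (hm : m.IsMaximal) : Finite (A ⧸ m) := by
  sorry

theorem cong {A : Type u} [CommRing A] {d : ℕ} {K : Type v} [Group K] (M : K →* GL (Fin d) A) (m : Ideal A) (K1 : Subgroup K)
    (h1 : ∀ g ∈ K1, ∀ a b, ((M g : Matrix (Fin d) (Fin d) A) - 1) a b ∈ m) (n : ℕ) :
    ∀ g ∈ K1.lowerCentralSeries n, ∀ a b, ((M g : Matrix (Fin d) (Fin d) A) - 1) a b ∈ m ^ (n + 1) := by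
  sorry

theorem lin1 {A : Type u} [CommRing A] [Algebra.FiniteType ℤ A] {d : ℕ} {K : Type v} [Group K] (M : K →* GL (Fin d) A) :
    ∃ K1 : Subgroup K, K1.FiniteIndex ∧ ∀ g : K, (∀ n, g ∈ K1.lowerCentralSeries n) → ∀ P : Ideal A, P.IsPrime →
      ∀ a b, ((M g : Matrix (Fin d) (Fin d) A) - 1) a b ∈ P := by
  sorry

end Pool.Agent.H94.BC
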