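import Pool.Agent.H94.BC.N1

/-! The step for homomorphisms to groups whose elements have order prime to the orders of the elements of `Q`. -/

set_option autoImplicit false

universe u v

namespace Pool.Agent.H94.BC

theorem prime_exp {r m o : ℕ} (hr : 0 < r) (ho : o ∣ r) (hc : Nat.Coprime o m) : m ^ r.factorial ≡ 1 [MOD o] := by
  have h1 : m ^ Nat.totient o ≡ 1 [MOD o] := Nat.ModEq.pow_totient hc.symm
  have h2 : Nat.totient o ∣ r.factorial := by
    have hopos : 0 < o := Nat.pos_of_dvd_of_pos ho hr
    exact Nat.dvd_factorial (Nat.totient_pos.2 hopos) ((Nat.totient_le o).trans (Nat.le_of_dvd hr ho))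
  obtain ⟨c, hc'⟩ := h2
  rw [hc', pow_mul]
  simpa using h1.pow c

/-- The kernels of all homomorphisms to groups whose elements have order prime to the orders of the elements of `Q`
contain one subgroup of finite index. -/
theorem prime_step {K : Type u} {Q : Type v} [Group K] [Group Q] {φ : K →* Q} (g : Good φ) (_hQ : NoFI Q) :
    ∃ K1 : Subgroup K, K1.FiniteIndex ∧ ∀ (T : Type u) [Group T],
      (∀ (t : T) (q : Q), (orderOf t).Coprime (orderOf q)) → ∀ f : K →* T, ∀ x ∈ K1, f x = 1 := by
  classical
  by_cases htor : ∃ q : Q, orderOf q = 0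
  · obtain ⟨q, hq⟩ := htor
    refine ⟨⊤, inferInstance, fun T _ hT f x _ => ?_⟩
    have := hT (f x) q
    rw [hq, Nat.coprime_zero_right] at this
    exact orderOf_eq_one_iff.1 this
  · push Not at htor
    obtain ⟨S, hS⟩ := Group.fg_def.1 g.fg
    have hfin : ∀ s : K, 0 < orderOf s := by
      intro s
      have hm : 0 < orderOf (φ s) := Nat.pos_of_ne_zero (htor _)
      have hk : s ^ orderOf (φ s) ∈ φ.ker := by
        rw [MonoidHom.mem_ker, map_pow, pow_orderOf_eq_one]
      have hF := g.lf {s ^ orderOf (φ s)} (by simp [hk])
      have h1 : IsOfFinOrder (s ^ orderOf (φ s)) := by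
        have h2 : IsOfFinOrder (⟨s ^ orderOf (φ s), Subgroup.subset_closure (by simp)⟩ :
            Subgroup.closure (({s ^ orderOf (φ s)} : Finset K) : Set K)) := isOfFinOrder_of_finite _
        exact (Submonoid.isOfFinOrder_coe).2 h2
      have h3 : IsOfFinOrder s := h1.of_pow hm.ne'
      exact h3.orderOf_pos
    set e : K → ℕ := fun s => orderOf (φ s) ^ (orderOf s).factorial with he
    set n : K → K := fun s => s ^ e s with hn
    have hnk : ∀ s, n s ∈ φ.ker := by
      intro s
      rw [MonoidHom.mem_ker]
      show φ (s ^ e s) = 1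
      rw [map_pow, he]
      have hdvd : orderOf (φ s) ∣ orderOf (φ s) ^ (orderOf s).factorial :=
        dvd_pow_self _ (Nat.factorial_pos _).ne'
      exact orderOf_dvd_iff_pow_eq_one.1 hdvd
    set H : Subgroup K := Subgroup.closure ((S.image n : Finset K) : Set K) with hH
    have hHfin : Finite H := g.lf (S.image n) (by
      intro x hx
      simp only [Finset.coe_image, Set.mem_image] at hx
      obtain ⟨s, _, rfl⟩ := hx
      exact hnk s)
    set R : Set K := (fun s => s⁻¹ * n s) '' (S : Set K) with hR
    refine ⟨Subgroup.normalClosure R, ?_, ?_⟩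
    · -- the quotient is the image of `H`
      set D := Subgroup.normalClosure R
      have hsurj : Function.Surjective ((QuotientGroup.mk' D).comp H.subtype) := by
        rw [← MonoidHom.range_eq_top, MonoidHom.range_comp, H.range_subtype, eq_top_iff]
        have htop : (⊤ : Subgroup (K ⧸ D)) = (Subgroup.closure (S : Set K)).map (QuotientGroup.mk' D) := by
          rw [hS, ← MonoidHom.range_eq_map]
          exact (MonoidHom.range_eq_top.2 (QuotientGroup.mk'_surjective D)).symm
        rw [htop, MonoidHom.map_closure, Subgroup.closure_le]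
        rintro _ ⟨s, hs, rfl⟩
        have hmem : s⁻¹ * n s ∈ D := Subgroup.subset_normalClosure ⟨s, hs, rfl⟩
        have heq : QuotientGroup.mk' D s = QuotientGroup.mk' D (n s) := by
          rw [QuotientGroup.mk'_apply, QuotientGroup.mk'_apply]
          exact (QuotientGroup.eq).2 hmem
        rw [SetLike.mem_coe, heq]
        exact ⟨n s, Subgroup.subset_closure (by simpa using ⟨s, hs, rfl⟩), rfl⟩
      have hfq : Finite (K ⧸ D) := Finite.of_surjective _ hsurj
      exact Subgroup.finiteIndex_of_finite_quotient
    · intro T _ hT f x hx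
      have hle : Subgroup.normalClosure R ≤ f.ker := by
        apply Subgroup.normalClosure_le_normal
        rintro _ ⟨s, _, rfl⟩
        rw [SetLike.mem_coe, MonoidHom.mem_ker]
        have hdvd : orderOf (f s) ∣ orderOf s := orderOf_map_dvd f s
        have hmod : orderOf (φ s) ^ (orderOf s).factorial ≡ 1 [MOD orderOf (f s)] :=
          prime_exp (hfin s) hdvd (hT (f s) (φ s))
        have hpow : f s ^ (e s) = f s := by
          have := (pow_inj_mod (x := f s)).2 hmod
          simpa using this
        show f (s⁻¹ * s ^ e s) = 1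
        rw [map_mul, map_inv, map_pow, hpow, inv_mul_cancel]
      exact hle hx

end Pool.Agent.H94.BC
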