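import Pool.Agent.H94.BC.N1
import Pool.Agent.H94.BC.P1
import Pool.Agent.H94.BC.L0

set_option autoImplicit false

universe u v

namespace Pool.Agent.H94.BC

/-- One step: a finite index subgroup which is mapped into `M` by every homomorphism to a group `T` with `T ⧸ M` of one of the types. -/
theorem step {K : Type u} {Q : Type v} [Group K] [Group Q] {φ : K →* Q} (g : Good φ) (hQ : NoFI Q) (d : ℕ) :
    ∃ K1 : Subgroup K, K1.FiniteIndex ∧ ∀ (T : Type u) [Group T] (M : Subgroup T) (_ : M.Normal),
      (Group.IsNilpotent (T ⧸ M) ∨ ResLinear d M ∨ PrimeTo (T ⧸ M) Q) → ∀ f : K →* T, ∀ x ∈ K1, f x ∈ M := by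
  obtain ⟨A, hA, HA⟩ := lin2 g.fg d
  obtain ⟨B, hB, HB⟩ := prime_step g hQ
  have gA := good_sub g hQ A hA
  have hD := nil_step g hQ
  have hE := nil_step gA hQ
  set D := ⨅ n, (⊤ : Subgroup K).lowerCentralSeries n with hDd
  set E := ⨅ n, (⊤ : Subgroup A).lowerCentralSeries n with hEd
  have hE2 : (E.map A.subtype).FiniteIndex := by
    refine ⟨?_⟩
    rw [Subgroup.index_map_subtype]
    exact mul_ne_zero hE.index_ne_zero hA.index_ne_zero
  refine ⟨D ⊓ E.map A.subtype ⊓ B, inferInstance, ?_⟩
  intro T _ M hM hT f x hx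
  obtain ⟨⟨hxD, hxE⟩, hxB⟩ := hx
  rcases hT with hT | hT | hT
  · obtain ⟨n, hn⟩ := Subgroup.nilpotent_iff_lowerCentralSeries.1 hT
    have h1 : x ∈ (⊤ : Subgroup K).lowerCentralSeries n := by
      have := hxD
      rw [hDd] at this
      exact (Subgroup.mem_iInf.1 this) n
    have h2 : ((QuotientGroup.mk' M).comp f) x ∈ (⊤ : Subgroup (T ⧸ M)).lowerCentralSeries n := by
      have h3 : ((⊤ : Subgroup K).lowerCentralSeries n).map ((QuotientGroup.mk' M).comp f) ≤ (⊤ : Subgroup (T ⧸ M)).lowerCentralSeries n := by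
        rw [Subgroup.map_lowerCentralSeries]
        exact Subgroup.lowerCentralSeries_mono n le_top
      exact h3 ⟨x, h1, rfl⟩
    rw [hn, Subgroup.mem_bot] at h2
    exact (QuotientGroup.eq_one_iff _).1 h2
  · by_contra hxM
    obtain ⟨F, _, ρ, h1, h2⟩ := hT (f x) hxM
    apply h2
    have h3 : ∀ n, x ∈ A.lowerCentralSeries n := by
      intro n
      rw [← Subgroup.top_subtype_lowerCentralSeries]
      obtain ⟨y, hy, rfl⟩ := hxE
      have hy2 : y ∈ E := hy
      rw [hEd] at hy2
      exact ⟨y, (Subgroup.mem_iInf.1 hy2) n, rfl⟩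
    exact HA x h3 F (ρ.comp f)
  · have h1 := HB (T ⧸ M) hT ((QuotientGroup.mk' M).comp f) x hxB
    exact (QuotientGroup.eq_one_iff _).1 h1

theorem key {Q : Type v} [Group Q] (hQ : NoFI Q) (d h : ℕ) : ∀ {K : Type u} [Group K] {φ : K →* Q}, Good φ →
    ∃ L : Subgroup K, L.FiniteIndex ∧ ∀ (T : Type u) [Group T], Tame Q d h T → ∀ f : K →* T, ∀ x ∈ L, f x = 1 := by
  induction h with
  | zero =>
    intro K _ φ g
    refine ⟨⊤, inferInstance, ?_⟩
    intro T _ hT f x _
    have : Subsingleton T := hT
    exact Subsingleton.elim _ _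
  | succ h ih =>
    intro K _ φ g
    obtain ⟨K1, hK1, H1⟩ := step g hQ d
    obtain ⟨L1, hL1, HL⟩ := ih (good_sub g hQ K1 hK1)
    refine ⟨L1.map K1.subtype, ⟨?_⟩, ?_⟩
    · rw [Subgroup.index_map_subtype]
      exact mul_ne_zero hL1.index_ne_zero hK1.index_ne_zero
    · intro T _ hT f x hx
      obtain ⟨M, hM, h1, h2⟩ := hT
      obtain ⟨y, hy, rfl⟩ := hx
      have h3 : ∀ z : K1, (f.comp K1.subtype) z ∈ M := fun z => H1 T M hM h1 f z z.2
      have h4 := HL M h2 ((f.comp K1.subtype).codRestrict M h3) y hy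
      have h5 := congrArg Subtype.val h4
      exact h5

theorem tame_inj {Q : Type v} [Group Q] (d h : ℕ) : ∀ {S T : Type u} [Group S] [Group T] (f : S →* T), Function.Injective f →
    Tame Q d h T → Tame Q d h S := by
  induction h with
  | zero =>
    intro S T _ _ f hf hT
    have : Subsingleton T := hT
    exact hf.subsingleton
  | succ h ih =>
    intro S T _ _ f hf hT
    obtain ⟨M, hM, h1, h2⟩ := hT
    have hn : (M.comap f).Normal := inferInstance
    -- the injection of quotients
    let F : S ⧸ M.comap f →* T ⧸ M := QuotientGroup.map (M.comap f) M f le_rfl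
    have hF : Function.Injective F := by
      rw [injective_iff_map_eq_one]
      intro a ha
      obtain ⟨a, rfl⟩ := QuotientGroup.mk_surjective a
      have : f a ∈ M := (QuotientGroup.eq_one_iff _).1 ha
      exact (QuotientGroup.eq_one_iff _).2 this
    refine ⟨M.comap f, hn, ?_, ?_⟩
    · rcases h1 with h1 | h1 | h1
      · left
        have : Group.IsNilpotent F.range := inferInstance
        exact (Group.isNilpotent_congr (MonoidHom.ofInjective hF)).2 this
      · right; left
        intro g hg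
        obtain ⟨E, hE, ρ, h3, h4⟩ := h1 (f g) hg
        exact ⟨E, hE, ρ.comp f, fun m hm => h3 (f m) hm, h4⟩
      · right; right
        intro t q
        have := h1 (F t) q
        rwa [orderOf_injective F hF] at this
    · let F2 : (M.comap f) →* M := (f.comp (M.comap f).subtype).codRestrict M (fun z => z.2)
      have hF2 : Function.Injective F2 := by
        intro a b hab
        have h5 : f a = f b := congrArg Subtype.val hab
        exact Subtype.ext (hf h5)
      exact ih F2 hF2 h2

theorem tame_mono {Q Q0 : Type v} [Group Q] [Group Q0] (i : Q0 →* Q) (hi : Function.Injective i) (d h : ℕ) : ∀ {T : Type u} [Group T],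
    Tame Q d h T → Tame Q0 d h T := by
  induction h with
  | zero => intro T _ hT; exact hT
  | succ h ih =>
    intro T _ hT
    obtain ⟨M, hM, h1, h2⟩ := hT
    refine ⟨M, hM, ?_, ih h2⟩
    rcases h1 with h1 | h1 | h1
    · exact Or.inl h1
    · exact Or.inr (Or.inl h1)
    · refine Or.inr (Or.inr fun t q => ?_)
      rw [← orderOf_injective i hi q]
      exact h1 t (i q)

theorem main {G : Type u} {Q : Type v} [Group G] [Group Q] (d h : ℕ) (φ : G →* Q) (hφ : Function.Surjective φ) (hN : LocFin φ.ker)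
    (hG : ∀ g : G, g ≠ 1 → ∃ U : Subgroup G, ∃ _ : U.Normal, U.FiniteIndex ∧ g ∉ U ∧ Tame Q d h (φ.ker.map (QuotientGroup.mk' U)))
    (hQ : Group.FG Q) (hfin : {H : Subgroup Q | H.FiniteIndex}.Finite) : Finite Q := by
  classical
  -- the finite residual
  set Q0 : Subgroup Q := ⨅ H : {H : Subgroup Q | H.FiniteIndex}, (H : Subgroup Q) with hQ0
  have hf1 : Finite {H : Subgroup Q | H.FiniteIndex} := hfin
  have hQ0i : Q0.FiniteIndex := Subgroup.finiteIndex_iInf fun H => H.2
  have hno : NoFI Q0 := by
    intro H hH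
    have h1 : (H.map Q0.subtype).FiniteIndex := by
      refine ⟨?_⟩
      rw [Subgroup.index_map_subtype]
      exact mul_ne_zero hH.index_ne_zero hQ0i.index_ne_zero
    have h2 : Q0 ≤ H.map Q0.subtype := iInf_le (fun H : {H : Subgroup Q | H.FiniteIndex} => (H : Subgroup Q)) ⟨_, h1⟩
    rw [eq_top_iff]
    intro q _
    obtain ⟨r, hr, e⟩ := h2 q.2
    have : r = q := Subtype.ext e
    rw [← this]; exact hr
  have hfg0 : Group.FG Q0 := Subgroup.fg_of_index_ne_zero Q0
  -- a finitely generated subgroup `K` of `G` mapping onto `Q0`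
  obtain ⟨S, hS⟩ := Group.fg_def.1 hfg0
  choose l hl using fun q : Q0 => hφ (q : Q)
  set K : Subgroup G := Subgroup.closure ((S.image l : Finset G) : Set G) with hK
  have hKfg : Group.FG K := by
    rw [hK]
    exact (Group.fg_iff_subgroup_fg _).2 ⟨S.image l, rfl⟩
  have hK0 : ∀ k : K, φ k ∈ Q0 := by
    intro k
    have : K ≤ Q0.comap φ := by
      rw [hK, Subgroup.closure_le]
      intro x hx
      simp only [Finset.coe_image, Set.mem_image] at hx
      obtain ⟨s, _, rfl⟩ := hx
      show φ (l s) ∈ Q0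
      rw [hl s]; exact s.2
    exact this k.2
  let ψ : K →* Q0 := (φ.comp K.subtype).codRestrict Q0 hK0
  have hψ : ∀ k : K, ((ψ k : Q0) : Q) = φ k := fun k => rfl
  have g : Good ψ := by
    refine ⟨hKfg, ?_, ?_⟩
    · rw [← MonoidHom.range_eq_top, eq_top_iff, ← hS, Subgroup.closure_le]
      intro s hs
      have h1 : l s ∈ K := Subgroup.subset_closure (by simpa using ⟨s, s.2, hs, rfl⟩)
      exact ⟨⟨l s, h1⟩, Subtype.ext (hl s)⟩
    · intro s hs
      have h2 : Finite (Subgroup.closure ((s.image K.subtype : Finset G) : Set G)) := by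
        apply hN
        intro x hx
        simp only [Finset.coe_image, Set.mem_image] at hx
        obtain ⟨y, hy, rfl⟩ := hx
        have h3 := hs hy
        have h4 : ψ y = 1 := h3
        have h5 : φ y = 1 := by rw [← hψ, h4]; rfl
        exact h5
      have h3 : (Subgroup.closure (s : Set K)).map K.subtype = Subgroup.closure ((s.image K.subtype : Finset G) : Set G) := by
        rw [MonoidHom.map_closure, Finset.coe_image]
      rw [← h3] at h2
      have e := (Subgroup.closure (s : Set K)).equivMapOfInjective K.subtype K.subtype_injective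
      exact Finite.of_equiv _ e.symm.toEquiv
  obtain ⟨L, hL, HL⟩ := key (Q := Q0) hno d h g
  have hLb : L = ⊥ := by
    rw [eq_bot_iff]
    intro x hx
    rw [Subgroup.mem_bot]
    by_contra hx1
    have hxG : (x : G) ≠ 1 := fun h0 => hx1 (Subtype.ext h0)
    obtain ⟨U, hU, hUf, hxU, hT⟩ := hG x hxG
    have hV : (U.subgroupOf K).FiniteIndex := inferInstance
    have hVs : (U.subgroupOf K).map ψ = ⊤ := by
      apply hno
      have h2 := Subgroup.index_map_dvd (U.subgroupOf K) g.sur
      exact ⟨fun h0 => hV.index_ne_zero (by rw [h0] at h2; exact Nat.eq_zero_of_zero_dvd h2)⟩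
    have him : ∀ k : K, (QuotientGroup.mk' U) (k : G) ∈ φ.ker.map (QuotientGroup.mk' U) := by
      intro k
      have h1 : ψ k ∈ (U.subgroupOf K).map ψ := by rw [hVs]; trivial
      obtain ⟨u, hu, e⟩ := h1
      have hu2 : (u : G) ∈ U := Subgroup.mem_subgroupOf.1 hu
      have e2 : φ u = φ k := by rw [← hψ, ← hψ, e]
      refine ⟨(u : G)⁻¹ * k, ?_, ?_⟩
      · show φ ((u : G)⁻¹ * k) = 1
        rw [map_mul, map_inv, e2, inv_mul_cancel]
      · rw [map_mul, map_inv]
        have h3 : (QuotientGroup.mk' U) (u : G) = 1 := (QuotientGroup.eq_one_iff _).2 hu2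
        rw [h3, inv_one, one_mul]
    have h5 := HL _ (tame_mono Q0.subtype Q0.subtype_injective d h hT)
      (((QuotientGroup.mk' U).comp K.subtype).codRestrict _ him) x hx
    have h6 : (QuotientGroup.mk' U) (x : G) = 1 := congrArg Subtype.val h5
    exact hxU ((QuotientGroup.eq_one_iff _).1 h6)
  rw [hLb] at hL
  have hKf : Finite K := by
    have := hL.index_ne_zero
    rw [Subgroup.index_bot] at this
    exact Nat.finite_of_card_ne_zero this
  have hQ0f : Finite Q0 := Finite.of_surjective _ g.sur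
  have h7 : Nat.card Q0 * Q0.index = Nat.card Q := Subgroup.card_mul_index Q0
  have h8 : Nat.card Q ≠ 0 := by
    rw [← h7]
    exact mul_ne_zero Nat.card_pos.ne' hQ0i.index_ne_zero
  exact Nat.finite_of_card_ne_zero h8

end Pool.Agent.H94.BC
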