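import Pool.Agent.H94.BC.Defs

/-! The nilpotent step. -/

set_option autoImplicit false

universe u v

open scoped commutatorElement

namespace Pool.Agent.H94.BC

theorem comm_central {K : Type u} [Group K] (a b z w : K) (hz : ∀ k, z * k = k * z) (hw : ∀ k, w * k = k * w) :
    ⁅a * z, b * w⁆ = ⁅a, b⁆ := by
  have h1 : (a * z) * (b * w) = (a * b) * (z * w) := by
    rw [mul_assoc, mul_assoc, ← mul_assoc z b w, hz b]
    simp only [mul_assoc]
  have h2 : (b * w) * (a * z) = (b * a) * (z * w) := by
    rw [mul_assoc, mul_assoc, ← mul_assoc w a z, hw a, mul_assoc a w z, hw z]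
  rw [commutatorElement_def, commutatorElement_def]
  have h3 : a * z * (b * w) * (a * z)⁻¹ * (b * w)⁻¹ = (a * z * (b * w)) * ((b * w) * (a * z))⁻¹ := by group
  rw [h3, h1, h2]
  group

theorem lcs_sup {K : Type u} [Group K] (H : Subgroup K) (h1 : H ⊔ (⊤ : Subgroup K).lowerCentralSeries 1 = ⊤) (n : ℕ) :
    H ⊔ (⊤ : Subgroup K).lowerCentralSeries (n + 1) = ⊤ := by
  induction n with
  | zero => exact h1
  | succ n ih =>
    set C := (⊤ : Subgroup K).lowerCentralSeries (n + 1) with hC
    set D := (⊤ : Subgroup K).lowerCentralSeries (n + 1 + 1) with hD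
    have hDn : D.Normal := by rw [hD]; infer_instance
    have hCn : C.Normal := by rw [hC]; infer_instance
    have hDC : D = ⁅C, ⊤⁆ := by rw [hD, Subgroup.lowerCentralSeries_succ]
    have hdec : ∀ x : K, ∃ h ∈ H, ∃ c ∈ C, x = h * c := by
      intro x
      have hx : x ∈ H ⊔ C := by rw [ih]; trivial
      rw [Subgroup.mem_sup_of_normal_right] at hx
      obtain ⟨h, hh, c, hc, e⟩ := hx
      exact ⟨h, hh, c, hc, e.symm⟩
    have hcen : ∀ c ∈ C, ∀ k : K ⧸ D, (QuotientGroup.mk' D c) * k = k * (QuotientGroup.mk' D c) := by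
      intro c hc k
      obtain ⟨k, rfl⟩ := QuotientGroup.mk'_surjective D k
      have h2 : ⁅c, k⁆ ∈ D := by rw [hDC]; exact Subgroup.commutator_mem_commutator hc trivial
      have h3 : QuotientGroup.mk' D ⁅c, k⁆ = 1 := (QuotientGroup.eq_one_iff _).2 h2
      rw [map_commutatorElement, commutatorElement_eq_one_iff_mul_comm] at h3
      exact h3
    have hle : (⊤ : Subgroup K).lowerCentralSeries 1 ≤ H ⊔ D := by
      rw [Subgroup.lowerCentralSeries_succ, Subgroup.lowerCentralSeries_zero, Subgroup.commutator_le]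
      intro x _ y _
      obtain ⟨h, hh, c, hc, rfl⟩ := hdec x
      obtain ⟨h', hh', c', hc', rfl⟩ := hdec y
      have e1 : QuotientGroup.mk' D ⁅h * c, h' * c'⁆ = QuotientGroup.mk' D ⁅h, h'⁆ := by
        rw [map_commutatorElement, map_commutatorElement, map_mul, map_mul]
        exact comm_central _ _ _ _ (hcen c hc) (hcen c' hc')
      have e2 : ⁅h, h'⁆⁻¹ * ⁅h * c, h' * c'⁆ ∈ D := by
        rw [← QuotientGroup.eq_one_iff]
        have : ((⁅h, h'⁆⁻¹ * ⁅h * c, h' * c'⁆ : K) : K ⧸ D) = (QuotientGroup.mk' D ⁅h, h'⁆)⁻¹ * QuotientGroup.mk' D ⁅h * c, h' * c'⁆ := rfl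
        rw [this, e1, inv_mul_cancel]
      have e3 : ⁅h, h'⁆ ∈ H ⊔ D := (le_sup_left : H ≤ H ⊔ D) (by rw [commutatorElement_def]; exact mul_mem (mul_mem (mul_mem hh hh') (inv_mem hh)) (inv_mem hh'))
      have e4 := mul_mem e3 ((le_sup_right : D ≤ H ⊔ D) e2)
      rwa [mul_inv_cancel_left] at e4
    rw [eq_top_iff, ← h1]
    exact sup_le le_sup_left hle

theorem fg_comm_triv {A : Type v} [AddCommGroup A] [Module.Finite ℤ A] (h : ∀ M : Submodule ℤ A, Finite (A ⧸ M) → M = ⊤) :
    Subsingleton A := by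
  by_contra hA
  rw [not_subsingleton_iff_nontrivial] at hA
  obtain h1 | ⟨M, hM, -⟩ := IsCoatomic.eq_top_or_exists_le_coatom (⊥ : Submodule ℤ A)
  · exact absurd h1 bot_ne_top
  · have hs := isSimpleModule_iff_isCoatom.2 hM
    obtain ⟨I, hI, ⟨e⟩⟩ := isSimpleModule_iff_quot_maximal.1 hs
    have hI0 : I ≠ ⊥ := Ring.ne_bot_of_isMaximal_of_not_isField hI Int.not_isField
    have hf : Finite (ℤ ⧸ I) := Ideal.finiteQuotientOfFreeOfNeBot I hI0
    have : Finite (A ⧸ M) := Finite.of_equiv _ e.symm.toEquiv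
    exact hM.1 (h M this)

theorem perfect {Q : Type v} [Group Q] (hfg : Group.FG Q) (h : NoFI Q) : commutator Q = ⊤ := by
  have hq : Group.FG (Abelianization Q) := by
    have : Group.FG (Q ⧸ commutator Q) := inferInstance
    exact this
  have h1 : Module.Finite ℤ (Additive (Abelianization Q)) := Module.Finite.iff_addGroup_fg.2 inferInstance
  have h2 : Subsingleton (Additive (Abelianization Q)) := by
    refine fg_comm_triv fun M hM => ?_
    let f : Q →* Multiplicative (Additive (Abelianization Q) ⧸ M) :=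
      { toFun := fun q => Multiplicative.ofAdd (M.mkQ (Additive.ofMul (Abelianization.of q)))
        map_one' := by simp
        map_mul' := fun a b => by simp }
    have hfin : Finite (Multiplicative (Additive (Abelianization Q) ⧸ M)) := hM
    have hk : f.ker = ⊤ := h _ (Subgroup.finiteIndex_ker f)
    rw [eq_top_iff]
    intro a _
    obtain ⟨q, hq⟩ := QuotientGroup.mk'_surjective (commutator Q) (Additive.toMul a)
    have h3 : q ∈ f.ker := by rw [hk]; trivial
    rw [MonoidHom.mem_ker] at h3
    have h4 : M.mkQ (Additive.ofMul (Abelianization.of q)) = 0 := h3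
    have h5 : Additive.ofMul (Abelianization.of q) = a := by
      have : (Abelianization.of q : Abelianization Q) = Additive.toMul a := hq
      rw [this]; rfl
    rw [h5] at h4
    simpa using h4
  rw [eq_top_iff]
  intro q _
  have h3 : (Abelianization.of q : Abelianization Q) = 1 := by
    have := h2.elim (Additive.ofMul (Abelianization.of q)) 0
    exact this
  exact (QuotientGroup.eq_one_iff q).1 h3

theorem exists_fin {K : Type u} {Q : Type v} [Group K] [Group Q] {φ : K →* Q} (g : Good φ) (hQ : NoFI Q) :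
    ∃ H : Subgroup K, Finite H ∧ H ⊔ (⊤ : Subgroup K).lowerCentralSeries 1 = ⊤ := by
  classical
  obtain ⟨S, hS⟩ := Group.fg_def.1 g.fg
  have hQfg : Group.FG Q := by
    have := g.fg
    exact Group.fg_of_surjective g.sur
  have hp := perfect hQfg hQ
  have hx : ∀ x : K, ∃ n : K, n ∈ φ.ker ∧ x * n⁻¹ ∈ (⊤ : Subgroup K).lowerCentralSeries 1 := by
    intro x
    have h1 : φ x ∈ (⊤ : Subgroup Q).lowerCentralSeries 1 := by
      rw [Subgroup.top_lowerCentralSeries_one, hp]; trivial
    have h2 : ((⊤ : Subgroup K).lowerCentralSeries 1).map φ = (⊤ : Subgroup Q).lowerCentralSeries 1 := by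
      rw [Subgroup.map_lowerCentralSeries, ← MonoidHom.range_eq_map, MonoidHom.range_eq_top.2 g.sur]
    rw [← h2] at h1
    obtain ⟨c, hc, e⟩ := h1
    refine ⟨c⁻¹ * x, ?_, ?_⟩
    · rw [MonoidHom.mem_ker, map_mul, map_inv, e, inv_mul_cancel]
    · have : x * (c⁻¹ * x)⁻¹ = c := by group
      rw [this]; exact hc
  choose n hn hc using hx
  refine ⟨Subgroup.closure ((S.image n : Finset K) : Set K), ?_, ?_⟩
  · apply g.lf
    intro x hx
    simp only [Finset.coe_image, Set.mem_image] at hx
    obtain ⟨s, _, rfl⟩ := hx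
    exact hn s
  · have hle : Subgroup.closure (S : Set K) ≤
        Subgroup.closure ((S.image n : Finset K) : Set K) ⊔ (⊤ : Subgroup K).lowerCentralSeries 1 := ?_
    · rw [hS] at hle
      exact top_le_iff.1 hle
    rw [Subgroup.closure_le]
    intro s hs
    have h1 : n s ∈ Subgroup.closure ((S.image n : Finset K) : Set K) :=
      Subgroup.subset_closure (by simpa using ⟨s, hs, rfl⟩)
    have h2 : s = (s * (n s)⁻¹) * n s := by group
    rw [h2]
    exact mul_mem ((le_sup_right : _ ≤ Subgroup.closure ((S.image n : Finset K) : Set K) ⊔ _) (hc s))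
      ((le_sup_left : Subgroup.closure ((S.image n : Finset K) : Set K) ≤ _) h1)

theorem nil_step {K : Type u} {Q : Type v} [Group K] [Group Q] {φ : K →* Q} (g : Good φ) (hQ : NoFI Q) :
    (⨅ n, (⊤ : Subgroup K).lowerCentralSeries n).FiniteIndex := by
  obtain ⟨H, hH, h1⟩ := exists_fin g hQ
  have hall : ∀ n, H ⊔ (⊤ : Subgroup K).lowerCentralSeries n = ⊤ := by
    intro n
    cases n with
    | zero => rw [Subgroup.lowerCentralSeries_zero]; exact sup_top_eq _
    | succ n => exact lcs_sup H h1 n
  have hx : ∀ x : K, ∃ h : H, (h : K)⁻¹ * x ∈ ⨅ n, (⊤ : Subgroup K).lowerCentralSeries n := by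
    intro x
    by_contra hcon
    push Not at hcon
    have hcon2 : ∀ h : H, ∃ n, (h : K)⁻¹ * x ∉ (⊤ : Subgroup K).lowerCentralSeries n := by
      intro h
      have := hcon h
      rw [Subgroup.mem_iInf] at this
      push Not at this
      exact this
    choose m hm using hcon2
    have := Fintype.ofFinite H
    have hb : ∀ h : H, m h ≤ Finset.univ.sup m := fun h => Finset.le_sup (Finset.mem_univ h)
    have hxs : x ∈ H ⊔ (⊤ : Subgroup K).lowerCentralSeries (Finset.univ.sup m) := by rw [hall]; trivial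
    rw [Subgroup.mem_sup_of_normal_right] at hxs
    obtain ⟨h, hh, c, hc, e⟩ := hxs
    apply hm ⟨h, hh⟩
    apply Subgroup.lowerCentralSeries_antitone (⊤ : Subgroup K) (hb ⟨h, hh⟩)
    have : (h : K)⁻¹ * x = c := by rw [← e]; group
    rw [this]; exact hc
  set D := ⨅ n, (⊤ : Subgroup K).lowerCentralSeries n with hD
  have hs : Function.Surjective (fun h : H => ((h : K) : K ⧸ D)) := by
    intro y
    obtain ⟨x, rfl⟩ := QuotientGroup.mk_surjective y
    obtain ⟨h, hh⟩ := hx x
    exact ⟨h, (QuotientGroup.eq).2 hh⟩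
  have : Finite (K ⧸ D) := Finite.of_surjective _ hs
  exact Subgroup.finiteIndex_of_finite_quotient

theorem good_sub {K : Type u} {Q : Type v} [Group K] [Group Q] {φ : K →* Q} (g : Good φ) (hQ : NoFI Q) (K1 : Subgroup K) (h1 : K1.FiniteIndex) :
    Good (φ.comp K1.subtype) := by
  classical
  refine ⟨?_, ?_, ?_⟩
  · have := g.fg
    exact Subgroup.fg_of_index_ne_zero K1
  · rw [← MonoidHom.range_eq_top, MonoidHom.range_comp, K1.range_subtype]
    apply hQ
    have h2 := Subgroup.index_map_dvd K1 g.sur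
    exact ⟨fun h0 => h1.index_ne_zero (by rw [h0] at h2; exact Nat.eq_zero_of_zero_dvd h2)⟩
  · intro s hs
    have h2 : Finite (Subgroup.closure ((s.image K1.subtype : Finset K) : Set K)) := by
      apply g.lf
      intro x hx
      simp only [Finset.coe_image, Set.mem_image] at hx
      obtain ⟨y, hy, rfl⟩ := hx
      exact hs hy
    have h3 : (Subgroup.closure (s : Set K1)).map K1.subtype = Subgroup.closure ((s.image K1.subtype : Finset K) : Set K) := by
      rw [MonoidHom.map_closure, Finset.coe_image]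
    rw [← h3] at h2
    have e := (Subgroup.closure (s : Set K1)).equivMapOfInjective K1.subtype K1.subtype_injective
    exact Finite.of_equiv _ e.symm.toEquiv

end Pool.Agent.H94.BC
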